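import Mathlib

namespace Pool.Agent.Results.MP_63bb40_co.KZero

open Finset

/-- The vertices surviving the deletion of the closed neighbourhoods of `X` and of the set `Y`. -/
def Rest {n : ℕ} (G : SimpleGraph (Fin n)) (X Y : Finset (Fin n)) : Set (Fin n) :=
  {v | v ∉ Y ∧ ∀ x ∈ X, v ≠ x ∧ ¬G.Adj x v}

/-- `(k,m)`-robust: what survives is always connected and has two non-adjacent vertices. -/
def Robust {n : ℕ} (k m : ℕ) (G : SimpleGraph (Fin n)) : Prop :=
  ∀ X Y : Finset (Fin n), X.card ≤ k → Y.card ≤ m →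
    (G.induce (Rest G X Y)).Connected ∧
      ∃ u ∈ Rest G X Y, ∃ v ∈ Rest G X Y, u ≠ v ∧ ¬G.Adj u v

theorem result (m n : ℕ) :
    (∃ G : SimpleGraph (Fin n), Robust 0 m G) ↔ ∃ s, n = m + 1 + s ∧ n ≤ s ^ 2 := by
  classical
  constructor
  · rintro ⟨G, hG⟩
    have H : ∀ A : Finset (Fin n), n ≤ m + A.card →
        (G.induce (Rest G ∅ Aᶜ)).Connected ∧ ∃ u ∈ A, ∃ v ∈ A, u ≠ v ∧ ¬G.Adj u v := by
      intro A hA
      obtain ⟨h1, u, hu, v, hv, h2⟩ := hG ∅ Aᶜ (by simp) (by rw [card_compl]; simp; omega)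
      exact ⟨h1, u, by simpa [Rest] using hu, v, by simpa [Rest] using hv, h2⟩
    have cl : ∀ A : Finset (Fin n), G.IsClique (A : Set (Fin n)) → m + A.card < n := by
      intro A hA
      by_contra hh
      obtain ⟨-, u, hu, v, hv, h1, h2⟩ := H A (by omega)
      exact h2 (hA hu hv h1)
    have nb : ∀ v, m + (univ.filter fun w => ¬G.Adj v w).card < n := by
      intro v
      by_contra hh
      obtain ⟨h0, a, ha, b, hb, h1, -⟩ := H (univ.filter fun w => ¬G.Adj v w) (by omega)
      have key : ∀ c ∈ univ.filter (fun w => ¬G.Adj v w), c = v := by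
        intro c hc
        obtain ⟨p⟩ := h0.preconnected ⟨v, by simp [Rest]⟩ ⟨c, by simpa [Rest] using hc⟩
        by_contra hne
        obtain ⟨w, hw, -⟩ := p.exists_eq_cons_of_ne (fun e => hne (congrArg Subtype.val e).symm)
        have h3 := w.2
        simp only [Rest, Set.mem_setOf_eq, mem_compl, not_not, mem_filter] at h3
        exact h3.1.2 hw
      exact h1 ((key a ha).trans (key b hb).symm)
    obtain ⟨K, hK, hmax⟩ := exists_max_image
      (univ.filter fun A : Finset (Fin n) => G.IsClique (A : Set (Fin n))) card ⟨∅, by simp⟩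
    have hK' := (mem_filter.1 hK).2
    have cov : (univ : Finset (Fin n)) ⊆ K.biUnion fun v => univ.filter fun w => ¬G.Adj v w := by
      intro w _
      by_contra hh
      have h1 : ∀ v ∈ K, G.Adj v w := by
        intro v hv
        by_contra h
        exact hh (mem_biUnion.2 ⟨v, hv, by simp [h]⟩)
      have h2 : w ∉ K := fun h => G.irrefl (h1 w h)
      have h3 := hmax (insert w K) (mem_filter.2 ⟨mem_univ _, by
        rw [coe_insert]; exact hK'.insert fun b hb _ => (h1 b hb).symm⟩)
      rw [card_insert_of_notMem h2] at h3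
      omega
    have c1 := cl K hK'
    refine ⟨n - m - 1, by omega, ?_⟩
    have c2 := (card_le_card cov).trans (card_biUnion_le_card_mul _ _ (n - m - 1)
      fun v _ => by have := nb v; omega)
    rw [card_univ, Fintype.card_fin] at c2
    rw [sq]
    exact c2.trans (Nat.mul_le_mul_right _ (by omega))
  · rintro ⟨s, hn, hs⟩
    have hs0 : 0 < s := by
      rcases Nat.eq_zero_or_pos s with rfl | h
      · simp at hs; omega
      · exact h
    let G : SimpleGraph (Fin n) :=
      { Adj := fun u v => u.val % s ≠ v.val % s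
        symm := ⟨fun _ _ h => h.symm⟩
        loopless := ⟨fun _ h => h rfl⟩ }
    refine ⟨G, fun X Y hX hY => ?_⟩
    obtain rfl : X = ∅ := card_eq_zero.1 (by omega)
    have hR : ∀ v, v ∈ Rest G ∅ Y ↔ v ∈ Yᶜ := by intro v; simp [Rest]
    have hc : (range s).card < Yᶜ.card := by rw [card_compl]; simp; omega
    obtain ⟨u, hu, v, hv, h1, h2⟩ := exists_ne_map_eq_of_card_lt_of_maps_to hc
      (f := fun v => v.val % s) (fun v _ => mem_coe.2 (mem_range.2 (Nat.mod_lt _ hs0)))
    obtain ⟨a, ha, b, hb, h3, h4⟩ := exists_ne_map_eq_of_card_lt_of_maps_to hc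
      (f := fun v => v.val / s) (fun v _ => mem_coe.2 (mem_range.2
        ((Nat.div_lt_iff_lt_mul hs0).2 (by have := v.2; rw [sq] at hs; omega))))
    have hab : a.val % s ≠ b.val % s := by
      intro e
      apply h3
      apply Fin.ext
      have h5 : a.val / s = b.val / s := h4
      rw [← Nat.div_add_mod a.val s, ← Nat.div_add_mod b.val s, h5, e]
    refine ⟨?_, u, (hR u).2 hu, v, (hR v).2 hv, h1, fun h => h h2⟩
    have ra : ∀ x : Rest G ∅ Y, (G.induce (Rest G ∅ Y)).Reachable x ⟨a, (hR a).2 ha⟩ := by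
      intro x
      by_cases e : x.1.val % s = a.val % s
      · have e1 : (G.induce (Rest G ∅ Y)).Adj x ⟨b, (hR b).2 hb⟩ := fun h => hab (e.symm.trans h)
        have e2 : (G.induce (Rest G ∅ Y)).Adj ⟨b, (hR b).2 hb⟩ ⟨a, (hR a).2 ha⟩ := hab.symm
        exact e1.reachable.trans e2.reachable
      · have e1 : (G.induce (Rest G ∅ Y)).Adj x ⟨a, (hR a).2 ha⟩ := e
        exact e1.reachable
    haveI : Nonempty (Rest G ∅ Y) := ⟨⟨a, (hR a).2 ha⟩⟩
    exact SimpleGraph.Connected.mk fun x y => (ra x).trans (ra y).symm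

end Pool.Agent.Results.MP_63bb40_co.KZero
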